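import Mathlib

/-!
# The determinant of an orthogonal transformation and the rank of `x - 1`
-/

set_option autoImplicit false

namespace Pool.Agent.ON

open Module

section

variable {k V : Type*} [Field k] [AddCommGroup V] [Module k V] [FiniteDimensional k V]

/-- The fixed vectors of an orthogonal transformation are the vectors orthogonal to the range of
`x - 1`. -/
theorem on_fix (b : LinearMap.BilinForm k V) (hs : ∀ x y, b x y = b y x)
    (hn : ∀ x, (∀ y, b x y = 0) → x = 0) (g : Module.End k V)
    (hb : ∀ x y, b (g x) (g y) = b x y) (v : V) :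
    g v = v ↔ ∀ s ∈ LinearMap.range (g - 1), b s v = 0 := by
  have hsurj : Function.Surjective g := by
    apply LinearMap.surjective_of_injective
    rw [injective_iff_map_eq_zero]
    intro x hx
    apply hn
    intro y
    rw [← hb, hx, map_zero, LinearMap.zero_apply]
  constructor
  · rintro h s ⟨u, rfl⟩
    rw [LinearMap.sub_apply, Module.End.one_apply, map_sub, LinearMap.sub_apply]
    nth_rewrite 1 [← h]
    rw [hb, sub_self]
  · intro h
    rw [← sub_eq_zero]
    apply hn
    intro y
    obtain ⟨u, rfl⟩ := hsurj y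
    have h1 := h _ ⟨u, rfl⟩
    rw [LinearMap.sub_apply, Module.End.one_apply, map_sub, LinearMap.sub_apply, sub_eq_zero] at h1
    rw [map_sub, LinearMap.sub_apply, hb, hs v (g u), h1, hs u v, sub_self]

/-- **Parity.** -/
theorem on_parity (b : LinearMap.BilinForm k V) (hs : ∀ x y, b x y = b y x)
    (hn : ∀ x, (∀ y, b x y = 0) → x = 0) (g : Module.End k V)
    (hb : ∀ x y, b (g x) (g y) = b x y) :
    LinearMap.det g = (-1) ^ Module.finrank k (LinearMap.range (g - 1)) := by
  classical
  set W : Submodule k V := LinearMap.ker (g - 1) with hW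
  have hmemW : ∀ v, v ∈ W ↔ g v = v := by
    intro v
    rw [hW, LinearMap.mem_ker, LinearMap.sub_apply, Module.End.one_apply, sub_eq_zero]
  have he : W ≤ W.comap g := by
    intro v hv
    rw [Submodule.mem_comap, hmemW]
    rw [hmemW] at hv
    rw [hv, hv]
  rw [LinearMap.det_eq_det_mul_det W g he]
  have h1 : LinearMap.restrict g (p := W) (q := W) he = 1 := by
    ext ⟨v, hv⟩
    rw [hmemW] at hv
    exact hv
  have h1' : LinearMap.det (LinearMap.restrict g (p := W) (q := W) he) = 1 := by
    rw [h1]
    exact LinearMap.det_id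
  rw [h1', one_mul]
  -- the form on the quotient
  let M : LinearMap.BilinForm k V := b.compRight (g - 1)
  have hM : ∀ u v, M u v = b u (g v - v) := fun u v => rfl
  have hfix := on_fix b hs hn g hb
  let N : LinearMap.BilinForm k (V ⧸ W) := LinearMap.liftQ₂ W W M (by
    intro u hu
    rw [hmemW, hfix] at hu
    rw [LinearMap.mem_ker]
    ext v
    rw [LinearMap.zero_apply, hM, hs]
    exact hu _ ⟨v, rfl⟩) (by
    intro v hv
    rw [hmemW] at hv
    rw [LinearMap.mem_ker]
    ext u
    rw [LinearMap.zero_apply, LinearMap.flip_apply, hM, hv, sub_self, map_zero])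
  have hN : ∀ u v : V, N (Submodule.Quotient.mk u) (Submodule.Quotient.mk v) = b u (g v - v) :=
    fun u v => rfl
  set gq : Module.End k (V ⧸ W) := W.mapQ W g he with hgq
  have hgqm : ∀ v : V, gq (Submodule.Quotient.mk v) = Submodule.Quotient.mk (g v) := fun v => rfl
  have hsym : ∀ x y, N y x = - N (gq x) y := by
    intro x y
    obtain ⟨u, rfl⟩ := Submodule.Quotient.mk_surjective W x
    obtain ⟨v, rfl⟩ := Submodule.Quotient.mk_surjective W y
    rw [hgqm, hN, hN, map_sub, map_sub, hb, hs v (g u), hs v u]
    ring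
  have hnd : N.SeparatingRight := by
    intro y hy
    obtain ⟨v, rfl⟩ := Submodule.Quotient.mk_surjective W y
    rw [Submodule.Quotient.mk_eq_zero, hmemW, ← sub_eq_zero]
    apply hn
    intro u
    have h2 := hy (Submodule.Quotient.mk u)
    rw [hN] at h2
    rw [hs]
    exact h2
  let c := Module.finBasis k (V ⧸ W)
  have hdet : (LinearMap.BilinForm.toMatrix c N).det ≠ 0 :=
    (LinearMap.BilinForm.nondegenerate_iff_det_ne_zero c).mp
      (LinearMap.BilinForm.Nondegenerate.ofSeparatingRight hnd)
  have hmat : (LinearMap.BilinForm.toMatrix c N).transpose =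
      -((LinearMap.toMatrix c c gq).transpose * LinearMap.BilinForm.toMatrix c N) := by
    rw [← LinearMap.BilinForm.toMatrix_compLeft]
    ext i j
    rw [Matrix.transpose_apply, Matrix.neg_apply, LinearMap.BilinForm.toMatrix_apply,
      LinearMap.BilinForm.toMatrix_apply, hsym]
    rfl
  have hd2 := congrArg Matrix.det hmat
  rw [Matrix.det_transpose, Matrix.det_neg, Matrix.det_mul, Matrix.det_transpose,
    LinearMap.det_toMatrix, Fintype.card_fin] at hd2
  have hrank : Module.finrank k (LinearMap.range (g - 1)) = Module.finrank k (V ⧸ W) :=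
    (LinearMap.quotKerEquivRange (g - 1)).finrank_eq.symm
  rw [hrank]
  have h3 : (-1 : k) ^ Module.finrank k (V ⧸ W) * LinearMap.det gq = 1 := by
    apply mul_right_cancel₀ hdet
    rw [one_mul, mul_assoc]
    exact hd2.symm
  have h4 : (-1 : k) ^ Module.finrank k (V ⧸ W) * (-1 : k) ^ Module.finrank k (V ⧸ W) = 1 := by
    rw [← mul_pow, neg_one_mul, neg_neg, one_pow]
  calc LinearMap.det gq = ((-1 : k) ^ Module.finrank k (V ⧸ W) *
        (-1 : k) ^ Module.finrank k (V ⧸ W)) * LinearMap.det gq := by rw [h4, one_mul]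
    _ = (-1) ^ Module.finrank k (V ⧸ W) := by rw [mul_assoc, h3, mul_one]

end

end Pool.Agent.ON
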